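import Pool.Agent.Q223.IS.RE

set_option autoImplicit false
set_option linter.unusedSectionVars false

/-!
# The presentations

From double cosets in a finitely presented group which realise an equivalence relation `R` to finite
presentations whose isomorphism relation realises `R`.
-/

namespace Pool.Agent.U44.ISO

open Pool.Agent.Q223.IS

section

variable {A κ ι : Type} [Fintype A] [Fintype κ] [Fintype ι] (rl : κ → FreeGroup A)
  (r s : ι → FreeGroup A) (u v u' v' : FreeGroup A)

/-- The words of the elements of the free group, shifted by `o`. -/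
noncomputable def wd (o : ℕ) (g : FreeGroup A) : Wd :=
  (Quot.out g : List (A × Bool)).map (fun q => (o + (Fintype.equivFin A q.1 : ℕ), q.2))

theorem ev_wd {M : Type} [Group M] (x : ℕ → M) (o : ℕ) (g : FreeGroup A) :
    ev x (wd o g) = FreeGroup.lift (fun c => x (o + (Fintype.equivFin A c : ℕ))) g := by
  have h : FreeGroup.mk (wd o g) = FreeGroup.map (fun c => o + (Fintype.equivFin A c : ℕ)) g := by
    conv_rhs => rw [← Quot.out_eq g]
    rfl
  unfold ev
  rw [h, ← MonoidHom.comp_apply]
  congr 1
  apply FreeGroup.ext_hom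
  intro c
  rw [MonoidHom.comp_apply, FreeGroup.map.of, FreeGroup.lift_apply_of, FreeGroup.lift_apply_of]

/-- The relators of `K`. -/
noncomputable def R0 : List Wd :=
  (Finset.univ : Finset (A × A)).toList.map (fun c => cmw (wd 0 (FreeGroup.of c.1))
    (wd (Fintype.card A) (FreeGroup.of c.2))) ++
  ((Finset.univ : Finset A).toList.map (fun c => cmw [(Fintype.card A + Fintype.card A, true)]
    (wd 0 (FreeGroup.of c) ++ wd (Fintype.card A) (FreeGroup.of c))) ++
  (Finset.univ : Finset κ).toList.map (fun k => cmw [(Fintype.card A + Fintype.card A, true)]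
    (wd 0 (rl k))))

/-- The words of the subgroup. -/
noncomputable def RS : List Wd :=
  (Finset.univ : Finset ι).toList.map (fun i => wd 0 (r i)) ++
  (Finset.univ : Finset ι).toList.map (fun i => wd (Fintype.card A) (s i))

/-- The code. -/
noncomputable def fc (n : ℕ) : ℕ × List Wd :=
  fcode (Fintype.card A) (R0 rl) (RS r s) (wd 0 u) (wd 0 v) (wd 0 u') (wd 0 v') n

/-- `x` and `Φ` match. -/
structure Mt {M : Type} [Group M] (x : ℕ → M) (Φ : KK (pr rl) →* M) : Prop where
  a : ∀ c, Φ (ka _ c) = x (0 + (Fintype.equivFin A c : ℕ))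
  b : ∀ c, Φ (kb _ c) = x (Fintype.card A + (Fintype.equivFin A c : ℕ))
  t : Φ (kt _) = x (Fintype.card A + Fintype.card A)

variable {rl}

theorem Mt.ca {M : Type} [Group M] {x : ℕ → M} {Φ : KK (pr rl) →* M} (h : Mt rl x Φ)
    (g : FreeGroup A) : ev x (wd 0 g) = Φ (wa _ g) := by
  rw [ev_wd, ← MonoidHom.comp_apply]
  congr 1
  apply FreeGroup.ext_hom
  intro c
  rw [FreeGroup.lift_apply_of, MonoidHom.comp_apply, wa_of, h.a]

theorem Mt.cb {M : Type} [Group M] {x : ℕ → M} {Φ : KK (pr rl) →* M} (h : Mt rl x Φ)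
    (g : FreeGroup A) : ev x (wd (Fintype.card A) g) = Φ (wb _ g) := by
  rw [ev_wd, ← MonoidHom.comp_apply]
  congr 1
  apply FreeGroup.ext_hom
  intro c
  rw [FreeGroup.lift_apply_of, MonoidHom.comp_apply, wb_of, h.b]

theorem Mt.ct {M : Type} [Group M] {x : ℕ → M} {Φ : KK (pr rl) →* M} (h : Mt rl x Φ)
    (u v : FreeGroup A) (n : ℕ) :
    ev x (tw (Fintype.card A + Fintype.card A) (wd 0 u) (wd 0 v) n) = Φ (Tt _ (u ^ n * v)) := by
  rw [ev_tw, h.ca, h.ca, ← h.t]
  unfold Tt
  simp only [map_mul, map_pow, map_inv]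

theorem Mt.r0 {M : Type} [Group M] {x : ℕ → M} {Φ : KK (pr rl) →* M} (h : Mt rl x Φ) :
    ∀ w ∈ R0 rl, ev x w = 1 := by
  intro w hw
  unfold R0 at hw
  rw [List.mem_append, List.mem_append, List.mem_map, List.mem_map, List.mem_map] at hw
  rcases hw with ⟨c, _, rfl⟩ | ⟨c, _, rfl⟩ | ⟨k, _, rfl⟩
  · rw [ev_cmw, h.ca, h.cb]
    exact (ka_kb _ _ _).map Φ
  · rw [ev_cmw, ev_append, h.ca, h.cb, ev_true, ← h.t, ← map_mul]
    exact (kt_ab _ c).map Φ
  · rw [ev_cmw, h.ca, ev_true, ← h.t]
    refine (kt_rel _ _ ?_).map Φ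
    exact PresentedGroup.one_of_mem ⟨k, rfl⟩

theorem exists_Mt {M : Type} [Group M] {x : ℕ → M} (h : ∀ w ∈ R0 rl, ev x w = 1) :
    ∃ Φ : KK (pr rl) →* M, Mt rl x Φ := by
  suffices H : ∃ Φ : KK (pr rl) →* M, (∀ c, Φ (ka _ c) = x (0 + (Fintype.equivFin A c : ℕ))) ∧
      (∀ c, Φ (kb _ c) = x (Fintype.card A + (Fintype.equivFin A c : ℕ))) ∧
      Φ (kt _) = x (Fintype.card A + Fintype.card A) by
    obtain ⟨Φ, h1, h2, h3⟩ := H
    exact ⟨Φ, h1, h2, h3⟩
  apply KK_lift rl (fun c => x (0 + (Fintype.equivFin A c : ℕ)))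
    (fun c => x (Fintype.card A + (Fintype.equivFin A c : ℕ))) (x (Fintype.card A + Fintype.card A))
  · intro c d
    have := h (cmw (wd 0 (FreeGroup.of c)) (wd (Fintype.card A) (FreeGroup.of d))) (by
      unfold R0
      rw [List.mem_append, List.mem_map]
      exact Or.inl ⟨(c, d), Finset.mem_toList.2 (Finset.mem_univ _), rfl⟩)
    rw [ev_cmw, ev_wd, ev_wd, FreeGroup.lift_apply_of, FreeGroup.lift_apply_of] at this
    exact this
  · intro c
    have := h (cmw [(Fintype.card A + Fintype.card A, true)]
      (wd 0 (FreeGroup.of c) ++ wd (Fintype.card A) (FreeGroup.of c))) (by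
      unfold R0
      rw [List.mem_append, List.mem_append, List.mem_map, List.mem_map]
      exact Or.inr (Or.inl ⟨c, Finset.mem_toList.2 (Finset.mem_univ _), rfl⟩))
    rw [ev_cmw, ev_true, ev_append, ev_wd, ev_wd, FreeGroup.lift_apply_of,
      FreeGroup.lift_apply_of] at this
    exact this
  · intro k
    have := h (cmw [(Fintype.card A + Fintype.card A, true)] (wd 0 (rl k))) (by
      unfold R0
      rw [List.mem_append, List.mem_append, List.mem_map, List.mem_map, List.mem_map]
      exact Or.inr (Or.inr ⟨k, Finset.mem_toList.2 (Finset.mem_univ _), rfl⟩))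
    rw [ev_cmw, ev_true, ev_wd] at this
    exact this

variable {r s u v u' v'}

theorem Mt.rj {M : Type} [Group M] {x : ℕ → M} {Φ : KK (pr rl) →* M} (h : Mt rl x Φ) (n j : ℕ) :
    (∀ w ∈ relsJ (Fintype.card A) (RS r s) (wd 0 u) (wd 0 v) (wd 0 u') (wd 0 v') n j, ev x w = 1) ↔
      RelT (Zs (pr rl) r s (fun i => u' ^ i * v') j) (Tt (pr rl) (u ^ n * v)) j Φ
        (x (Fintype.card A + Fintype.card A + 1 + j)) := by
  have e1 : ev x (tw (Fintype.card A + Fintype.card A) (wd 0 u) (wd 0 v) n ++
      [(Fintype.card A + Fintype.card A + 1 + j, true)] ++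
      FreeGroup.invRev (tw (Fintype.card A + Fintype.card A) (wd 0 u) (wd 0 v) n) ++
      [(Fintype.card A + Fintype.card A + 1 + j, true)]) =
      Φ (Tt _ (u ^ n * v)) * x (Fintype.card A + Fintype.card A + 1 + j) *
        (Φ (Tt _ (u ^ n * v)))⁻¹ * x (Fintype.card A + Fintype.card A + 1 + j) := by
    rw [ev_append, ev_append, ev_append, ev_inv, h.ct, ev_true]
  have e0 : ev x (rp (3 ^ (j + 1)) [(Fintype.card A + Fintype.card A + 1 + j, true)]) =
      x (Fintype.card A + Fintype.card A + 1 + j) ^ 3 ^ (j + 1) := by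
    rw [ev_rp, ev_true]
  constructor
  · intro H
    refine ⟨?_, ?_, ?_⟩
    · rw [← e0]
      exact H _ (List.mem_cons_self)
    · rintro z ((⟨i, rfl⟩ | ⟨i, rfl⟩) | ⟨i, hi, rfl⟩)
      · have := H (cmw [(Fintype.card A + Fintype.card A + 1 + j, true)] (wd 0 (r i))) (by
          refine List.mem_cons_of_mem _ (List.mem_cons_of_mem _ (List.mem_append_left _ ?_))
          refine List.mem_map_of_mem (List.mem_append_left _ ?_)
          exact List.mem_map_of_mem (Finset.mem_toList.2 (Finset.mem_univ _)))
        rw [ev_cmw, ev_true, h.ca] at this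
        exact this
      · have := H (cmw [(Fintype.card A + Fintype.card A + 1 + j, true)]
          (wd (Fintype.card A) (s i))) (by
          refine List.mem_cons_of_mem _ (List.mem_cons_of_mem _ (List.mem_append_left _ ?_))
          refine List.mem_map_of_mem (List.mem_append_right _ ?_)
          exact List.mem_map_of_mem (Finset.mem_toList.2 (Finset.mem_univ _)))
        rw [ev_cmw, ev_true, h.cb] at this
        exact this
      · have := H (cmw [(Fintype.card A + Fintype.card A + 1 + j, true)]
          (tw (Fintype.card A + Fintype.card A) (wd 0 u') (wd 0 v') i)) (by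
          refine List.mem_cons_of_mem _ (List.mem_cons_of_mem _ (List.mem_append_right _ ?_))
          exact List.mem_map_of_mem (List.mem_range.2 (Nat.lt_succ_of_le hi)))
        rw [ev_cmw, ev_true, h.ct] at this
        exact this
    · have := H _ (List.mem_cons_of_mem _ (List.mem_cons_self))
      rw [e1] at this
      exact eq_inv_of_mul_eq_one_left this
  · intro H w hw
    unfold relsJ at hw
    rw [List.mem_cons, List.mem_cons, List.mem_append, List.mem_map, List.mem_map] at hw
    rcases hw with rfl | rfl | ⟨z, hz, rfl⟩ | ⟨i, hi, rfl⟩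
    · rw [e0]
      exact H.ord
    · rw [e1, H.inv, inv_mul_cancel]
    · unfold RS at hz
      rw [List.mem_append, List.mem_map, List.mem_map] at hz
      rcases hz with ⟨i, _, rfl⟩ | ⟨i, _, rfl⟩
      · rw [ev_cmw, ev_true, h.ca]
        exact H.com _ (Or.inl (Or.inl ⟨i, rfl⟩))
      · rw [ev_cmw, ev_true, h.cb]
        exact H.com _ (Or.inl (Or.inr ⟨i, rfl⟩))
    · rw [ev_cmw, ev_true, h.ct]
      exact H.com _ (Or.inr ⟨i, Nat.lt_succ_iff.1 (List.mem_range.1 hi), rfl⟩)

theorem Mt.rel {M : Type} [Group M] {x : ℕ → M} {Φ : KK (pr rl) →* M} (h : Mt rl x Φ) (n : ℕ) :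
    (∀ w ∈ (fc rl r s u v u' v' n).2, ev x w = 1) ↔ ∀ j < n,
      RelT (Zs (pr rl) r s (fun i => u' ^ i * v') j) (Tt (pr rl) (u ^ n * v)) j Φ
        (x (Fintype.card A + Fintype.card A + 1 + j)) := by
  constructor
  · intro H j hj
    rw [← h.rj (r := r) (s := s) (u := u) (v := v) (u' := u') (v' := v') n j]
    intro w hw
    exact H w (List.mem_append_right _ (List.mem_flatMap.2 ⟨j, List.mem_range.2 hj, hw⟩))
  · intro H w hw
    rcases List.mem_append.1 hw with hw | hw
    · exact h.r0 w hw
    · obtain ⟨j, hj, hw⟩ := List.mem_flatMap.1 hw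
      exact (h.rj n j).2 (H j (List.mem_range.1 hj)) w hw

/-- The presentation presents the tower. -/
theorem fc_iso (n m : ℕ) (hmn : m ≤ n)
    (hd : Dc (pr rl) r s (u ^ n * v) (u' ^ m * v')) {B : Type} [Group B] {io : KK (pr rl) →* B}
    {k : ℕ → B} (T : Tower (Zs (pr rl) r s (fun i => u' ^ i * v')) (Tt (pr rl) (u ^ n * v)) m B io k) :
    Nonempty (PG (fc rl r s u v u' v' n) ≃* B) := by
  -- the map to `B`
  let x : ℕ → B := fun i =>
    if h : i < Fintype.card A then io (ka _ ((Fintype.equivFin A).symm ⟨i, h⟩)) else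
    if h : i - Fintype.card A < Fintype.card A then
      io (kb _ ((Fintype.equivFin A).symm ⟨i - Fintype.card A, h⟩)) else
    if i = Fintype.card A + Fintype.card A then io (kt _) else
    if i < Fintype.card A + Fintype.card A + 1 + m then
      k (i - (Fintype.card A + Fintype.card A + 1)) else 1
  have hx : Mt rl x io := by
    refine ⟨?_, ?_, ?_⟩
    · intro c
      have h : 0 + (Fintype.equivFin A c : ℕ) < Fintype.card A := by
        rw [zero_add]; exact (Fintype.equivFin A c).2
      show _ = x _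
      simp only [x]
      rw [dif_pos h]
      congr 2
      rw [Equiv.eq_symm_apply]
      ext
      simp
    · intro c
      have h1 : ¬ Fintype.card A + (Fintype.equivFin A c : ℕ) < Fintype.card A := by omega
      have h2 : Fintype.card A + (Fintype.equivFin A c : ℕ) - Fintype.card A < Fintype.card A := by
        rw [Nat.add_sub_cancel_left]; exact (Fintype.equivFin A c).2
      show _ = x _
      simp only [x]
      rw [dif_neg h1, dif_pos h2]
      congr 2
      rw [Equiv.eq_symm_apply]
      ext
      simp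
    · show _ = x _
      simp only [x]
      rw [dif_neg (by omega), dif_neg (by omega), if_pos trivial]
  have hk : ∀ j, x (Fintype.card A + Fintype.card A + 1 + j) = if j < m then k j else 1 := by
    intro j
    simp only [x]
    rw [dif_neg (by omega), dif_neg (by omega), if_neg (by omega)]
    by_cases h : j < m
    · rw [if_pos (by omega), if_pos h]
      congr 1
      omega
    · rw [if_neg (by omega), if_neg h]
  obtain ⟨F, hF⟩ := PG_lift (fc rl r s u v u' v' n) x (by
    intro i hi
    have hi' : Fintype.card A + Fintype.card A + 1 + n ≤ i := hi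
    obtain ⟨j, rfl⟩ := Nat.exists_eq_add_of_le hi'
    rw [add_assoc, hk, if_neg (by omega)]) (by
    rw [hx.rel]
    intro j hj
    rw [hk]
    by_cases h : j < m
    · rw [if_pos h]
      exact T.rel j h
    · rw [if_neg h]
      exact relT_triv _ _ _ _)
  -- the map from `B`
  obtain ⟨Φ, hΦ⟩ := exists_Mt (rl := rl) (x := gen (fc rl r s u v u' v' n))
    (fun w hw => PG_rel _ (List.mem_append_left _ hw))
  have hrel := (hΦ.rel (r := r) (s := s) (u := u) (v := v) (u' := u') (v' := v') n).1
    (fun w hw => PG_rel _ hw)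
  obtain ⟨G, hG, hG'⟩ := T.lift (PG (fc rl r s u v u' v' n)) Φ
    (fun j => gen (fc rl r s u v u' v' n) (Fintype.card A + Fintype.card A + 1 + j))
    (fun j hj => hrel j (by omega))
  have h1 : F.comp G = MonoidHom.id B := by
    refine T.ext _ _ _ ?_ ?_
    · intro y
      rw [MonoidHom.comp_apply, hG]
      have : F.comp Φ = io := by
        refine KK_ext _ (pr_surj rl) ?_ ?_ ?_
        · intro c
          rw [MonoidHom.comp_apply, hΦ.a, hF, hx.a]
        · intro c
          rw [MonoidHom.comp_apply, hΦ.b, hF, hx.b]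
        · rw [MonoidHom.comp_apply, hΦ.t, hF, hx.t]
      exact DFunLike.congr_fun this y
    · intro j hj
      rw [MonoidHom.comp_apply, hG' j hj, hF, hk, if_pos hj]
      rfl
  have h2 : G.comp F = MonoidHom.id (PG (fc rl r s u v u' v' n)) := by
    apply PG_ext
    intro i
    rw [MonoidHom.comp_apply, hF]
    show G (x i) = gen _ i
    rcases lt_or_ge i (Fintype.card A) with h | h
    · have := hx.a ((Fintype.equivFin A).symm ⟨i, h⟩)
      rw [Equiv.apply_symm_apply] at this
      simp only [zero_add] at this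
      rw [← this, hG, hΦ.a, Equiv.apply_symm_apply]
      simp only [zero_add]
    · rcases lt_or_ge i (Fintype.card A + Fintype.card A) with h' | h'
      · have := hx.b ((Fintype.equivFin A).symm ⟨i - Fintype.card A, by omega⟩)
        rw [Equiv.apply_symm_apply] at this
        simp only [Nat.add_sub_of_le h] at this
        rw [← this, hG, hΦ.b, Equiv.apply_symm_apply]
        simp only [Nat.add_sub_of_le h]
      · obtain ⟨j, rfl⟩ := Nat.exists_eq_add_of_le h'
        rcases j with _ | j
        · rw [add_zero, ← hx.t, hG, hΦ.t]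
        · have e : Fintype.card A + Fintype.card A + (j + 1) = Fintype.card A + Fintype.card A + 1 + j := by omega
          rw [e, hk]
          by_cases hj : j < m
          · rw [if_pos hj, hG' j hj]
          · rw [if_neg hj, map_one]
            by_cases hj' : j < n
            · exact (relT_one (hrel j hj') (not_lt.1 hj) hd).symm
            · refine (gen_big _ ?_).symm
              show Fintype.card A + Fintype.card A + 1 + n ≤ _
              omega
  exact ⟨{ toFun := F, invFun := G, left_inv := fun y => DFunLike.congr_fun h2 y,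
           right_inv := fun y => DFunLike.congr_fun h1 y, map_mul' := map_mul F }⟩

/-- The reduction. -/
theorem code_iso (R : ℕ → ℕ → Prop) (hR : Equivalence R)
    (hd : ∀ a b, Dc (pr rl) r s (u ^ a * v) (u' ^ b * v') ↔ R a b) :
    ∃ f : ℕ → ℕ × List Wd, Computable f ∧ ∀ x y, R x y ↔ Nonempty (PG (f x) ≃* PG (f y)) := by
  classical
  refine ⟨fc rl r s u v u' v', fcode_comp _ _ _ _ _ _ _, ?_⟩
  have key : ∀ x, ∃ m ≤ x, R x m ∧ ∃ (B : Type) (_ : Group B) (io : KK (pr rl) →* B) (k : ℕ → B),
      Tower (Zs (pr rl) r s (fun i => u' ^ i * v')) (Tt (pr rl) (u ^ x * v)) m B io k ∧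
      ∀ i < m, ¬ R x i := by
    intro x
    have hex : ∃ i, R x i := ⟨x, hR.refl x⟩
    refine ⟨Nat.find hex, Nat.find_min' hex (hR.refl x), Nat.find_spec hex, ?_⟩
    obtain ⟨B, gB, io, k, T⟩ := tower_exists (p := pr rl) (r := r) (s := s)
      (w := fun i => u' ^ i * v') (u ^ x * v) (Nat.find hex)
      (fun i hi h => Nat.find_min hex hi ((hd x i).1 h))
    exact ⟨B, gB, io, k, T, fun i hi => Nat.find_min hex hi⟩
  intro x y
  obtain ⟨m, hm, hxm, B, gB, io, k, T, hmin⟩ := key x
  obtain ⟨m', hm', hym, B', gB', io', k', T', hmin'⟩ := key y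
  obtain ⟨e⟩ := fc_iso x m hm ((hd x m).2 hxm) T
  constructor
  · intro hxy
    have h1 : m = m' := by
      rcases lt_trichotomy m m' with h | h | h
      · exact absurd (hR.trans (hR.symm hxy) hxm) (hmin' m h)
      · exact h
      · exact absurd (hR.trans hxy hym) (hmin m' h)
    subst h1
    have hdc : Dc (pr rl) r s (u ^ x * v) (u ^ y * v) :=
      ((hd x m).2 hxm).trans ((hd y m).2 hym).symm
    obtain ⟨e'⟩ := fc_iso y m hm' ((hd y m).2 hym) (tower_congr T hdc)
    exact ⟨e.trans e'.symm⟩
  · rintro ⟨e0⟩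
    obtain ⟨e'⟩ := fc_iso y m' hm' ((hd y m').2 hym) T'
    have h1 := tower_height T T' ((e.symm.trans e0).trans e')
    subst h1
    exact hR.trans hxm (hR.symm hym)

end

end Pool.Agent.U44.ISO
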