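import Pool.Agent.Q223.IS.DC
import Pool.Agent.Y786.ISO.Arith

set_option autoImplicit false
set_option linter.unusedSectionVars false

/-!
# Affine rules for a c.e. equivalence relation

For a system `L` of quadratic equations over the integers which defines an equivalence relation `R`
on the natural numbers we find a finite system of affine rules (in the sense of
`Pool.Agent.Q223.IS.Rl`) for which the configurations `(B, a ε_n)` and `(B', b ε_m)` are connected
if and only if `R a b`.
-/

namespace Pool.Agent.U44.ISO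

open Pool.Agent.Q223.IS Pool.Agent.Helper844.Sys
open Pool.Agent.Y817.ISO (Defines)

section General

variable {P J ι : Type} (D : ι → Rl P J)

/-- The free moves at a state. -/
def Fr (p : P) : AddSubgroup (J → ℤ) where
  carrier := {d | ∀ u, Relation.EqvGen (Step D) (p, u) (p, u + d)}
  zero_mem' := by
    intro u
    rw [add_zero]
    exact Relation.EqvGen.refl _
  add_mem' := by
    intro d d' hd hd' u
    have h1 := hd u
    have h2 := hd' (u + d)
    rw [add_assoc] at h2
    exact Relation.EqvGen.trans _ _ _ h1 h2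
  neg_mem' := by
    intro d hd u
    have h1 := hd (u + -d)
    rw [neg_add_cancel_right] at h1
    exact Relation.EqvGen.symm _ _ h1

theorem Fr_rule {p : P} {d : J → ℤ} (h : ∀ u, Step D (p, u) (p, u + d)) : d ∈ Fr D p :=
  fun u => Relation.EqvGen.rel _ _ (h u)

end General

section Sys

variable {X : Type} [Fintype X] [DecidableEq X] (n m : X) (L : List (Eqn X))

/-- The counters. -/
abbrev Cn : Type := X ⊕ (Fin L.length ⊕ (Fin L.length ⊕ Unit))

/-- The counter `x`. -/
abbrev cx (x : X) : Cn L := Sum.inl x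
/-- The counter `y_q`. -/
abbrev cy (q : Fin L.length) : Cn L := Sum.inr (Sum.inl q)
/-- The counter `s_q`. -/
abbrev cs (q : Fin L.length) : Cn L := Sum.inr (Sum.inr (Sum.inl q))
/-- The auxiliary counter. -/
abbrev cw : Cn L := Sum.inr (Sum.inr (Sum.inr ()))

/-- The states. -/
inductive Sta : Type
  | B | P1 | V | P2 | E
  | V1 (q : Fin L.length)
  | V2 (q : Fin L.length)

/-- The names of the rules. -/
inductive Ru : Type
  | start | toV | out | fin
  | f1 (x : X)
  | f2 (c : Cn L)
  | r1 (q : Fin L.length)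
  | r2 (q : Fin L.length)
  | r3 (q : Fin L.length)
  | r4 (q : Fin L.length)
  | r5 (q : Fin L.length)

/-- Restriction of the counters. -/
def rs (p : Cn L → Prop) [DecidablePred p] : (Cn L → ℤ) →+ (Cn L → ℤ) :=
  AddMonoidHom.mk' (fun z c => if p c then z c else 0) (by
    intro a b
    funext c
    by_cases h : p c <;> simp [h])

/-- The linear part of the test. -/
def ex : (Cn L → ℤ) →+ (Cn L → ℤ) :=
  AddMonoidHom.mk' (fun z => Sum.elim (fun x => z (cx L x)) (Sum.elim
    (fun q => z (cx L (L.get q).j)) (Sum.elim (fun q => -((L.get q).a * z (cx L (L.get q).k) +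
      (L.get q).b * z (cx L (L.get q).l) + (L.get q).c * z (cx L (L.get q).m))) (fun _ => 0)))) (by
    intro a b
    funext c
    rcases c with x | q | q | _
    · rfl
    · rfl
    · simp only [Sum.elim_inr, Sum.elim_inl, Pi.add_apply]
      ring
    · rfl)

/-- The constant part of the test. -/
def ec : Cn L → ℤ :=
  Sum.elim (fun _ => 0) (Sum.elim (fun _ => 0) (Sum.elim (fun q => -(L.get q).d) (fun _ => 0)))

/-- The first vector. -/
def d1 (q : Fin L.length) : Cn L → ℤ :=
  Pi.single (cw L) 1 - Pi.single (cx L (L.get q).i) 1 + Pi.single (cs L q) (L.get q).e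

/-- The second vector. -/
def d2 (q : Fin L.length) : Cn L → ℤ :=
  Pi.single (cw L) 1 - Pi.single (cx L (L.get q).i) 1

/-- The rules. -/
def rul : Ru L → Rl (Sta L) (Cn L)
  | Ru.start => ⟨Sta.B, Sta.P1, rs L (fun c => c = cx L n), 0, 0⟩
  | Ru.toV => ⟨Sta.P1, Sta.V, rs L (fun c => c.isLeft = true), 0, 0⟩
  | Ru.out => ⟨Sta.V, Sta.P2, ex L, ec L, ec L⟩
  | Ru.fin => ⟨Sta.P2, Sta.E, rs L (fun c => c = cx L m), 0, 0⟩
  | Ru.f1 x => ⟨Sta.P1, Sta.P1, AddMonoidHom.id _, 0, if x = n then 0 else Pi.single (cx L x) 1⟩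
  | Ru.f2 c => ⟨Sta.P2, Sta.P2, AddMonoidHom.id _, 0, if c = cx L m then 0 else Pi.single c 1⟩
  | Ru.r1 q => ⟨Sta.V, Sta.V1 q, rs L (fun c => c ≠ cw L), 0, 0⟩
  | Ru.r2 q => ⟨Sta.V1 q, Sta.V1 q, AddMonoidHom.id _, 0, d1 L q⟩
  | Ru.r3 q => ⟨Sta.V1 q, Sta.V2 q, rs L (fun c => c ≠ cx L (L.get q).i), 0,
      Pi.single (cy L q) 1⟩
  | Ru.r4 q => ⟨Sta.V2 q, Sta.V2 q, AddMonoidHom.id _, 0, d2 L q⟩
  | Ru.r5 q => ⟨Sta.V2 q, Sta.V, rs L (fun c => c ≠ cw L), 0, 0⟩

theorem rs_fix (p : Cn L → Prop) [DecidablePred p] (u : Cn L → ℤ) (h : ∀ c, ¬ p c → u c = 0) :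
    rs L p u = u := by
  funext c
  show (if p c then u c else 0) = u c
  by_cases hc : p c
  · rw [if_pos hc]
  · rw [if_neg hc, h c hc]

/-- One step with a rule whose source and target have the same shift `0`. -/
theorem step0 (i : Ru L) (u : Cn L → ℤ) (ha : (rul n m L i).a = 0) (hμ : (rul n m L i).μ u = u) :
    Step (rul n m L) ((rul n m L i).src, u) ((rul n m L i).tgt, u + (rul n m L i).b) := by
  have h := Step.mk (D := rul n m L) i u
  rw [hμ, ha, zero_add, add_comm (rul n m L i).b] at h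
  exact h

theorem stepc (i : Ru L) (u : Cn L → ℤ) (ha : (rul n m L i).a = 0) (hμ : (rul n m L i).μ u = u) :
    Relation.EqvGen (Step (rul n m L)) ((rul n m L i).src, u)
      ((rul n m L i).tgt, u + (rul n m L i).b) :=
  Relation.EqvGen.rel _ _ (step0 n m L i u ha hμ)

theorem fr1 (x : X) (hx : x ≠ n) : Pi.single (cx L x) (1 : ℤ) ∈ Fr (rul n m L) (Sta.P1 : Sta L) := by
  intro u
  have h := stepc n m L (Ru.f1 x) u rfl rfl
  have e : (rul n m L (Ru.f1 x)).b = Pi.single (cx L x) 1 := if_neg hx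
  rw [e] at h
  exact h

theorem fr2 (c : Cn L) (hc : c ≠ cx L m) :
    Pi.single c (1 : ℤ) ∈ Fr (rul n m L) (Sta.P2 : Sta L) := by
  intro u
  have h := stepc n m L (Ru.f2 c) u rfl rfl
  have e : (rul n m L (Ru.f2 c)).b = Pi.single c 1 := if_neg hc
  rw [e] at h
  exact h

theorem fr3 (q : Fin L.length) : d1 L q ∈ Fr (rul n m L) (Sta.V1 q) :=
  fun u => stepc n m L (Ru.r2 q) u rfl rfl

theorem fr4 (q : Fin L.length) : d2 L q ∈ Fr (rul n m L) (Sta.V2 q) :=
  fun u => stepc n m L (Ru.r4 q) u rfl rfl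

theorem mem_of_single (S : AddSubgroup (Cn L → ℤ)) (d : Cn L → ℤ)
    (h : ∀ c, d c ≠ 0 → Pi.single c (1 : ℤ) ∈ S) : d ∈ S := by
  have : d = ∑ c : Cn L, d c • (Pi.single c (1 : ℤ) : Cn L → ℤ) := by
    funext c
    rw [Finset.sum_apply, Finset.sum_eq_single c]
    · simp
    · intro b _ hb
      simp [Pi.single_eq_of_ne (Ne.symm hb)]
    · intro hc
      exact absurd (Finset.mem_univ c) hc
  rw [this]
  refine sum_mem fun c _ => ?_
  by_cases hc : d c = 0
  · rw [hc, zero_smul]
    exact zero_mem _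
  · exact zsmul_mem (h c hc) _

/-- A vector of the moves of `V`. -/
def dv (v : X → ℤ) (q : Fin L.length) : Cn L → ℤ :=
  Pi.single (cy L q) 1 + Pi.single (cs L q) ((L.get q).e * v (L.get q).i)

/-- The restricted moves at `V`. -/
def FrV (v : X → ℤ) : AddSubgroup (Cn L → ℤ) where
  carrier := {d | ((∀ x, d (cx L x) = 0) ∧ d (cw L) = 0) ∧
    ∀ u : Cn L → ℤ, (∀ x, u (cx L x) = v x) → u (cw L) = 0 →
      Relation.EqvGen (Step (rul n m L)) (Sta.V, u) (Sta.V, u + d)}
  zero_mem' := by
    refine ⟨⟨fun x => rfl, rfl⟩, ?_⟩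
    intro u _ _
    rw [add_zero]
    exact Relation.EqvGen.refl _
  add_mem' := by
    rintro d d' ⟨⟨h1, h2⟩, h3⟩ ⟨⟨h1', h2'⟩, h3'⟩
    refine ⟨⟨fun x => ?_, ?_⟩, ?_⟩
    · rw [Pi.add_apply, h1, h1', add_zero]
    · rw [Pi.add_apply, h2, h2', add_zero]
    · intro u hu hu'
      have h4 := h3 u hu hu'
      have h5 := h3' (u + d) (fun x => by rw [Pi.add_apply, hu, h1, add_zero])
        (by rw [Pi.add_apply, hu', h2, add_zero])
      rw [add_assoc] at h5
      exact Relation.EqvGen.trans _ _ _ h4 h5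
  neg_mem' := by
    rintro d ⟨⟨h1, h2⟩, h3⟩
    refine ⟨⟨fun x => ?_, ?_⟩, ?_⟩
    · rw [Pi.neg_apply, h1, neg_zero]
    · rw [Pi.neg_apply, h2, neg_zero]
    · intro u hu hu'
      have h4 := h3 (u + -d) (fun x => by rw [Pi.add_apply, Pi.neg_apply, hu, h1, neg_zero, add_zero])
        (by rw [Pi.add_apply, Pi.neg_apply, hu', h2, neg_zero, add_zero])
      rw [neg_add_cancel_right] at h4
      exact Relation.EqvGen.symm _ _ h4

theorem d1_w (q : Fin L.length) : d1 L q (cw L) = 1 := by
  simp [d1]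

theorem d2_w (q : Fin L.length) : d2 L q (cw L) = 1 := by
  simp [d2]

theorem d1_i (q : Fin L.length) : d1 L q (cx L (L.get q).i) = -1 := by
  simp [d1]

theorem d1_d2 (q : Fin L.length) : d1 L q = d2 L q + Pi.single (cs L q) (L.get q).e := rfl

theorem frv (v : X → ℤ) (q : Fin L.length) : dv L v q ∈ FrV n m L v := by
  refine ⟨⟨fun x => by simp [dv], by simp [dv]⟩, ?_⟩
  intro u hu hw
  have h1 : Relation.EqvGen (Step (rul n m L)) (Sta.V, u) (Sta.V1 q, u) := by
    have := stepc n m L (Ru.r1 q) u rfl (rs_fix L _ u (by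
      intro c hc
      rw [not_ne_iff] at hc
      rw [hc, hw]))
    have e : (rul n m L (Ru.r1 q)).b = 0 := rfl
    rw [e, add_zero] at this
    exact this
  have h2 := zsmul_mem (fr3 n m L q) (v (L.get q).i) u
  have h3 := stepc n m L (Ru.r3 q) (u + v (L.get q).i • d1 L q) rfl (rs_fix L _ _ (by
    intro c hc
    rw [not_ne_iff] at hc
    rw [hc, Pi.add_apply, Pi.smul_apply, d1_i, hu]
    simp))
  have h4 := neg_mem (zsmul_mem (fr4 n m L q) (v (L.get q).i))
    (u + v (L.get q).i • d1 L q + Pi.single (cy L q) 1)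
  have e : u + v (L.get q).i • d1 L q + Pi.single (cy L q) 1 + -(v (L.get q).i • d2 L q) =
      u + dv L v q := by
    rw [d1_d2, dv, smul_add, ← Pi.single_smul, smul_eq_mul, mul_comm (v _)]
    abel
  rw [e] at h4
  have h5 : Relation.EqvGen (Step (rul n m L)) (Sta.V2 q, u + dv L v q) (Sta.V, u + dv L v q) := by
    have := stepc n m L (Ru.r5 q) (u + dv L v q) rfl (rs_fix L _ _ (by
      intro c hc
      rw [not_ne_iff] at hc
      rw [hc, Pi.add_apply, hw]
      simp [dv]))
    have e : (rul n m L (Ru.r5 q)).b = 0 := rfl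
    rw [e, add_zero] at this
    exact this
  exact ((h1.trans _ _ _ (h2.trans _ _ _ (h3.trans _ _ _ h4))).trans _ _ _ h5)


/-- The counters after the guess. -/
def g1 (v : X → ℤ) : Cn L → ℤ := Sum.elim v (fun _ => 0)

/-- The counters after the computation. -/
def g2 (v : X → ℤ) : Cn L → ℤ :=
  Sum.elim v (Sum.elim (fun q => v (L.get q).j) (Sum.elim
    (fun q => (L.get q).e * (v (L.get q).i * v (L.get q).j)) (fun _ => 0)))

theorem to_g1 (v : X → ℤ) : Relation.EqvGen (Step (rul n m L))
    (Sta.B, Pi.single (cx L n) (v n)) (Sta.P1, g1 L v) := by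
  have h1 : Relation.EqvGen (Step (rul n m L)) (Sta.B, Pi.single (cx L n) (v n))
      (Sta.P1, Pi.single (cx L n) (v n)) := by
    have := stepc n m L Ru.start (Pi.single (cx L n) (v n)) rfl (rs_fix L _ _ (by
      intro c hc
      exact Pi.single_eq_of_ne hc _))
    have e : (rul n m L Ru.start).b = 0 := rfl
    rw [e, add_zero] at this
    exact this
  have h2 : g1 L v - Pi.single (cx L n) (v n) ∈ Fr (rul n m L) (Sta.P1 : Sta L) := by
    refine mem_of_single L _ _ ?_
    rintro (x | c) hc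
    · refine fr1 n m L x ?_
      rintro rfl
      apply hc
      simp [g1]
    · exfalso
      apply hc
      simp [g1]
  have h3 := h2 (Pi.single (cx L n) (v n))
  rw [add_sub_cancel] at h3
  exact h1.trans _ _ _ h3

theorem to_V (v : X → ℤ) : Relation.EqvGen (Step (rul n m L))
    (Sta.P1, g1 L v) (Sta.V, g1 L v) := by
  have := stepc n m L Ru.toV (g1 L v) rfl (rs_fix L _ _ (by
    rintro (x | c) hc
    · exact absurd rfl hc
    · rfl))
  have e : (rul n m L Ru.toV).b = 0 := rfl
  rw [e, add_zero] at this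
  exact this

theorem g2_eq (v : X → ℤ) : g2 L v = g1 L v + ∑ q, v (L.get q).j • dv L v q := by
  funext c
  rw [Pi.add_apply, Finset.sum_apply]
  rcases c with x | q | q | _
  · simp [g1, g2, dv]
  · simp only [g1, g2, dv, Sum.elim_inr, Sum.elim_inl, zero_add]
    rw [Finset.sum_eq_single q]
    · simp
    · intro b _ hb
      simp [Ne.symm hb]
    · intro h
      exact absurd (Finset.mem_univ q) h
  · simp only [g1, g2, dv, Sum.elim_inr, Sum.elim_inl, zero_add]
    rw [Finset.sum_eq_single q]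
    · simp
      ring
    · intro b _ hb
      simp [Ne.symm hb]
    · intro h
      exact absurd (Finset.mem_univ q) h
  · simp [g1, g2, dv]

theorem V_g2 (v : X → ℤ) : Relation.EqvGen (Step (rul n m L)) (Sta.V, g1 L v) (Sta.V, g2 L v) := by
  rw [g2_eq]
  have h : ∑ q, v (L.get q).j • dv L v q ∈ FrV n m L v :=
    sum_mem fun q _ => zsmul_mem (frv n m L v q) _
  exact h.2 (g1 L v) (fun x => rfl) rfl

theorem to_P2 (v : X → ℤ) (hv : ∀ q ∈ L, q.Holds v) : Relation.EqvGen (Step (rul n m L))
    (Sta.V, g2 L v) (Sta.P2, g2 L v) := by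
  have h := Relation.EqvGen.rel _ _ (Step.mk (D := rul n m L) Ru.out (g1 L v))
  have e : ec L + ex L (g1 L v) = g2 L v := by
    funext c
    rw [Pi.add_apply]
    rcases c with x | q | q | _
    · simp [ec, ex, g1, g2]
    · simp [ec, ex, g1, g2]
    · have := hv (L.get q) (List.get_mem L q)
      unfold Eqn.Holds at this
      simp only [ec, ex, g1, g2, Sum.elim_inr, Sum.elim_inl, AddMonoidHom.mk'_apply]
      linarith
    · simp [ec, ex, g1, g2]
  have h' : Relation.EqvGen (Step (rul n m L)) (Sta.V, ec L + ex L (g1 L v))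
      (Sta.P2, ec L + ex L (g1 L v)) := h
  rw [e] at h'
  exact h'

theorem to_E (v : X → ℤ) : Relation.EqvGen (Step (rul n m L))
    (Sta.P2, g2 L v) (Sta.E, Pi.single (cx L m) (v m)) := by
  have h1 : Relation.EqvGen (Step (rul n m L)) (Sta.P2, Pi.single (cx L m) (v m))
      (Sta.E, Pi.single (cx L m) (v m)) := by
    have := stepc n m L Ru.fin (Pi.single (cx L m) (v m)) rfl (rs_fix L _ _ (by
      intro c hc
      exact Pi.single_eq_of_ne hc _))
    have e : (rul n m L Ru.fin).b = 0 := rfl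
    rw [e, add_zero] at this
    exact this
  have h2 : g2 L v - Pi.single (cx L m) (v m) ∈ Fr (rul n m L) (Sta.P2 : Sta L) := by
    refine mem_of_single L _ _ ?_
    intro c hc
    refine fr2 n m L c ?_
    rintro rfl
    apply hc
    simp [g2]
  have h3 := h2 (Pi.single (cx L m) (v m))
  rw [add_sub_cancel] at h3
  exact (h3.symm _ _).trans _ _ _ h1

/-- Completeness. -/
theorem graph_complete (v : X → ℤ) (hv : ∀ q ∈ L, q.Holds v) : Relation.EqvGen (Step (rul n m L))
    (Sta.B, Pi.single (cx L n) (v n)) (Sta.E, Pi.single (cx L m) (v m)) :=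
  (((to_g1 n m L v).trans _ _ _ (to_V n m L v)).trans _ _ _ (V_g2 n m L v)).trans _ _ _
    ((to_P2 n m L v hv).trans _ _ _ (to_E n m L v))

/-! ### Soundness -/

variable (R : ℕ → ℕ → Prop) (k : ℕ)

/-- The class. -/
def cl (z : ℤ) : Prop := ∃ a : ℕ, z = a ∧ R a k

/-- The invariant of the computation. -/
def good (u : Cn L → ℤ) : Prop :=
  ∀ q, u (cs L q) = (L.get q).e * u (cx L (L.get q).i) * u (cy L q)

/-- The closed set at `V`. -/
def CV (u : Cn L → ℤ) : Prop := (good L u → cl R k (u (cx L n))) ∧ (¬ good L u → cl R k (u (cx L m)))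

/-- The closed set. -/
def CC : Sta L → (Cn L → ℤ) → Prop
  | Sta.B, u => cl R k (u (cx L n))
  | Sta.P1, u => cl R k (u (cx L n))
  | Sta.V, u => CV n m L R k u
  | Sta.P2, u => cl R k (u (cx L m))
  | Sta.E, u => cl R k (u (cx L m))
  | Sta.V1 q, u => CV n m L R k (u - u (cw L) • d1 L q)
  | Sta.V2 q, u => CV n m L R k (u - u (cw L) • d2 L q)

theorem CV_congr {u u' : Cn L → ℤ} (h : ∀ x, u (cx L x) = u' (cx L x))
    (hg : good L u ↔ good L u') : CV n m L R k u ↔ CV n m L R k u' := by
  unfold CV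
  rw [hg, h, h]

variable {R k}

theorem closed (hR : Equivalence R) (hD : Defines R n m L) : Closed (rul n m L) (CC n m L R k) := by
  rintro (_ | _ | _ | _ | x | c | q | q | q | q | q) z
  · show cl R k _ ↔ cl R k _
    rfl
  · show cl R k ((0 + rs L (fun c => c.isLeft = true) z) (cx L n)) ↔
      CV n m L R k (0 + rs L (fun c => c.isLeft = true) z)
    rw [zero_add]
    have hg : good L (rs L (fun c => c.isLeft = true) z) := by
      intro q
      simp [rs]
    unfold CV
    constructor
    · exact fun h => ⟨fun _ => h, fun h' => absurd hg h'⟩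
    · exact fun h => h.1 hg
  · show CV n m L R k (ec L + ex L z) ↔ cl R k ((ec L + ex L z) (cx L m))
    set u := ec L + ex L z with hu
    unfold CV
    by_cases hg : good L u
    · have hL : ∀ q ∈ L, q.Holds (fun x => u (cx L x)) := by
        intro q hq
        obtain ⟨i, hi, rfl⟩ := List.mem_iff_getElem.1 hq
        have h1 := hg ⟨i, hi⟩
        have e1 : u (cs L ⟨i, hi⟩) = -(L[i]).d + -((L[i]).a * u (cx L (L[i]).k) +
          (L[i]).b * u (cx L (L[i]).l) + (L[i]).c * u (cx L (L[i]).m)) := by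
          rw [hu]
          simp [ec, ex]
        have e2 : u (cy L ⟨i, hi⟩) = u (cx L (L[i]).j) := by
          rw [hu]
          simp [ec, ex]
        rw [e1, e2] at h1
        simp only [List.get_eq_getElem] at h1
        unfold Eqn.Holds
        linarith
      obtain ⟨a, b, ha, hb, hab⟩ := (hD (u (cx L n)) (u (cx L m))).1 ⟨_, rfl, rfl, hL⟩
      constructor
      · intro h
        obtain ⟨a', ha', h'⟩ := h.1 hg
        have : a' = a := by
          rw [ha] at ha'
          exact_mod_cast ha'.symm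
        subst this
        exact ⟨b, hb, hR.trans (hR.symm hab) h'⟩
      · rintro ⟨b', hb', h'⟩
        have : b' = b := by
          rw [hb] at hb'
          exact_mod_cast hb'.symm
        subst this
        exact ⟨fun _ => ⟨a, ha, hR.trans hab h'⟩, fun h' => absurd hg h'⟩
    · exact ⟨fun h => h.2 hg, fun h => ⟨fun h' => absurd h' hg, fun _ => h⟩⟩
  · show cl R k _ ↔ cl R k _
    rfl
  · show cl R k ((0 + z) (cx L n)) ↔ cl R k (((if x = n then 0 else Pi.single (cx L x) 1 : Cn L → ℤ) + z) (cx L n))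
    by_cases hx : x = n
    · rw [if_pos hx]
    · rw [if_neg hx, Pi.add_apply, Pi.add_apply, Pi.single_eq_of_ne]
      · rfl
      · intro h
        exact hx (Sum.inl_injective h).symm
  · show cl R k ((0 + z) (cx L m)) ↔ cl R k (((if c = cx L m then 0 else Pi.single c 1 : Cn L → ℤ) + z) (cx L m))
    by_cases hx : c = cx L m
    · rw [if_pos hx]
    · rw [if_neg hx, Pi.add_apply, Pi.add_apply, Pi.single_eq_of_ne]
      · rfl
      · exact fun h => hx h.symm
  · show CV n m L R k (0 + rs L (fun c => c ≠ cw L) z) ↔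
      CV n m L R k ((0 + rs L (fun c => c ≠ cw L) z) - (0 + rs L (fun c => c ≠ cw L) z) (cw L) • d1 L q)
    have : (0 + rs L (fun c => c ≠ cw L) z) (cw L) = 0 := by simp [rs]
    rw [this, zero_smul, sub_zero]
  · show CV n m L R k ((0 + z) - (0 + z) (cw L) • d1 L q) ↔
      CV n m L R k ((d1 L q + z) - (d1 L q + z) (cw L) • d1 L q)
    rw [zero_add, Pi.add_apply, d1_w, add_smul, one_smul]
    have : d1 L q + z - (d1 L q + z (cw L) • d1 L q) = z - z (cw L) • d1 L q := by abel
    rw [this]
  · show CV n m L R k ((0 + rs L (fun c => c ≠ cx L (L.get q).i) z) -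
        (0 + rs L (fun c => c ≠ cx L (L.get q).i) z) (cw L) • d1 L q) ↔
      CV n m L R k (((Pi.single (cy L q) 1 : Cn L → ℤ) + rs L (fun c => c ≠ cx L (L.get q).i) z) -
        ((Pi.single (cy L q) 1 : Cn L → ℤ) + rs L (fun c => c ≠ cx L (L.get q).i) z) (cw L) • d2 L q)
    have h0 : (rs L (fun c => c ≠ cx L (L.get q).i) z) (cx L (L.get q).i) = 0 := by simp [rs]
    generalize rs L (fun c => c ≠ cx L (L.get q).i) z = u at h0 ⊢
    refine CV_congr n m L R k (fun x => ?_) ?_
    · simp [d1, d2]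
    · unfold good
      refine forall_congr' fun q' => ?_
      by_cases hq : q' = q
      · subst hq
        simp only [d1, d2, zero_add, Pi.sub_apply, Pi.add_apply, Pi.smul_apply, smul_eq_mul]
        simp only [List.get_eq_getElem] at h0
        simp [h0]
        constructor
        · intro h
          linarith
        · intro h
          linarith
      · simp only [d1, d2, zero_add, Pi.sub_apply, Pi.add_apply, Pi.smul_apply, smul_eq_mul]
        simp [hq]
  · show CV n m L R k ((0 + z) - (0 + z) (cw L) • d2 L q) ↔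
      CV n m L R k ((d2 L q + z) - (d2 L q + z) (cw L) • d2 L q)
    rw [zero_add, Pi.add_apply, d2_w, add_smul, one_smul]
    have : d2 L q + z - (d2 L q + z (cw L) • d2 L q) = z - z (cw L) • d2 L q := by abel
    rw [this]
  · show CV n m L R k ((0 + rs L (fun c => c ≠ cw L) z) - (0 + rs L (fun c => c ≠ cw L) z) (cw L) • d2 L q)
      ↔ CV n m L R k (0 + rs L (fun c => c ≠ cw L) z)
    have : (0 + rs L (fun c => c ≠ cw L) z) (cw L) = 0 := by simp [rs]
    rw [this, zero_smul, sub_zero]

end Sys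

end Pool.Agent.U44.ISO
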